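import Pool.Agent.Y194.VN.Harm

/-!
# `ℓ²`-Betti numbers and the integral homology of one finite covering

Let `Γ` be the fundamental group of a closed aspherical manifold `M` (or any group), and let `C` be a cochain complex
of finitely generated free `ℤ[Γ]`-modules, for instance the cellular cochain complex of the universal covering of a
finite CW-complex `X` homotopy equivalent to `M`. For a subgroup `N` of finite index the cohomology of the complex
of the `N`-invariant cochains is the cohomology `H^i(N; ℤ)` of the covering of `M` belonging to `N`; the torsion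
of `H^{i+1}(N; ℤ)` is isomorphic to the torsion of `H_i(N; ℤ)`, the torsion of `H^i(N; ℤ)` is isomorphic to the
torsion of `H_{i-1}(N; ℤ)`.

Let `N` be residually a finite `p`-group (for a prime `p`), let `a_i` be the Betti numbers of `N`, and let

  `W_i = ∑_j (1 - p^{-v_j})`,  `⊕_j ℤ/p^{v_j}` the `p`-primary torsion subgroup of `H^i(N; ℤ)`.

Theorem.

1. `[Γ : N] b_i^(2)(Γ) ≤ a_i + W_i + W_{i+1}` for all `i`.
2. `[Γ : N] (b_i^(2) - b_{i-1}^(2) + … ± b_0^(2)) ≤ a_i - a_{i-1} + … ± a_0 + W_{i+1}` for all `i`.
3. The right hand side of 1, divided by the index, does not increase if `N` is replaced by a normal subgroup `N'` of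
   `p`-power index of `N`: the bounds 1 improve in the towers of `p`-coverings.
4. Let `P` be a subgroup of finite index of `Γ` all of whose finitely generated subgroups are residually (locally
   indicable, amenable and residually finite), e.g. `P` residually torsion-free nilpotent, or residually
   poly-`ℤ`, or RFRS. Then `[Γ : P] b_i^(2)(Γ)` is an integer; so the Singer conjecture holds for `Γ` in the degree `i`
   (there are no harmonic `ℓ²`-cochains of degree `i` but `0`) if for one prime `p` and one `N` as above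

     `[Γ : P] (a_i + W_i + W_{i+1}) < [Γ : N]`.

The known bound (for towers of normal subgroups of `p`-power index, Bergeron-Linnell-Lück-Sauer) is
`[Γ : N] b_i^(2) ≤ dim H^i(N; 𝔽_p)`, i.e. `a_i` plus the number of the summands `ℤ/p^v` in `H^i(N; ℤ)` and
`H^{i+1}(N; ℤ)`; here a summand `ℤ/p^v` only contributes `1 - p^{-v}`. In particular rational homology spheres
in the degree `i` with few cyclic summands (one, of any order, for `P = N`) satisfy the Singer conjecture in
this degree.

Proof. Let `Y` be a matrix over `ℤ[Γ]`, and `c_k(N)` the logarithm of the number of the `N`-invariant solutions of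
`Y x = 0` in `ℤ/p^k`. For `N'` normal of `p`-power index in `N` the weighted sums `∑_{k < n} p^{-k}(c_{k+1} - c_k)`,
divided by the index, decrease from `N` to `N'`. On the other hand the rank of the integral solutions for `N'` is at most
`(c_{k+1}(N') - c_k(N'))/log p` for all `k`. So `∑_k p^{-k} rk(N')/[Γ : N']` is at most the weighted sum for `N`, which
is `(∑_k p^{-k}) (rk(N) + W)/[Γ : N]`. By Lück's approximation theorem `rk(N')/[Γ : N']` is close to the
von Neumann dimension of the kernel of `Y` for suitable `N'`.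
-/

set_option autoImplicit false

open Finset Pool.Agent.Y194.VN
open Pool.Agent.TH107.AT (LocGood)

namespace Pool.Agent.Results.MP_f80465_gt.IntegralHomologyBound

/-- the subgroup `N` has finite index and is residually a finite `p`-group -/
structure Admissible (p : ℕ) {Γ : Type} [Group Γ] (N : Subgroup Γ) : Prop where
  finite : N.index ≠ 0
  resid : ResP p N

/-- the cohomology of `N` up to the degree `i + 1`: `H^j(N; ℤ)` is the direct sum of `ℤ ^ (a j)`, of the
`ℤ/p^{v j l}`, `l < m j`, and of a finite group of order prime to `p` -/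
def Types {Γ : Type} [Group Γ] (C : Cx Γ) (N : Subgroup Γ) (p i : ℕ) (a m : ℕ → ℕ)
    (v : ∀ j, Fin (m j) → ℕ) : Prop :=
  ∀ j ≤ i + 1, TypeOf p (C.H N j) (a j) (v j)

/-- the bound `a_i + W_i + W_{i+1}` -/
noncomputable def bound (p i : ℕ) (a m : ℕ → ℕ) (v : ∀ j, Fin (m j) → ℕ) : ℝ :=
  a i + ∑ l, (1 - ((p : ℝ)⁻¹) ^ v i l) + ∑ l, (1 - ((p : ℝ)⁻¹) ^ v (i + 1) l)

theorem result {Γ : Type} [Group Γ] (C : Cx Γ) {p : ℕ} [Fact p.Prime] {N : Subgroup Γ}
    (hN : Admissible p N) (i : ℕ) {a m : ℕ → ℕ} {v : ∀ j, Fin (m j) → ℕ}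
    (hT : Types C N p i a m v) :
    N.index * C.b2 i ≤ bound p i a m v ∧
    N.index * ∑ j ∈ range (i + 1), (-1 : ℝ) ^ (i + j) * C.b2 j ≤
      ∑ j ∈ range (i + 1), (-1 : ℝ) ^ (i + j) * a j +
        ∑ l, (1 - ((p : ℝ)⁻¹) ^ v (i + 1) l) ∧
    (∀ N' : Subgroup Γ, N' ≤ N → (N'.subgroupOf N).Normal → (∃ e, N'.relIndex N = p ^ e) →
      ∀ (a' m' : ℕ → ℕ) (v' : ∀ j, Fin (m' j) → ℕ), Types C N' p i a' m' v' →
        bound p i a' m' v' / N'.index ≤ bound p i a m v / N.index) ∧
    ∀ P : Subgroup Γ, P.index ≠ 0 → LocGood P →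
      (∃ z : ℤ, P.index * C.b2 i = z) ∧
      (P.index * bound p i a m v < N.index → harm (C.b i) (C.d i) = ⊥) := by
  have h0 : (0 : ℝ) < N.index := by exact_mod_cast Nat.pos_of_ne_zero hN.finite
  have h1 := betti_bound C hN.finite hN.resid i (hT i (Nat.le_succ i)) (hT (i + 1) le_rfl)
  refine ⟨h1, alt_bound C hN.finite hN.resid i hT, ?_, ?_⟩
  · rintro N' hle hn ⟨e, he⟩ a' m' v' hT'
    have h5 : (N'.index : ℝ) = (p : ℝ) ^ e * N.index := by
      rw [← Subgroup.relIndex_mul_index hle, he]
      push_cast
      ring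
    have hp0 : (0 : ℝ) < p := by exact_mod_cast (Fact.out (p := p.Prime)).pos
    have h6 : (0 : ℝ) < N'.index := by
      rw [h5]
      positivity
    have hN' : N'.index ≠ 0 := by
      intro h
      rw [h, Nat.cast_zero] at h6
      exact lt_irrefl _ h6
    have h7 := betti_mono C hN' hle hn he i (hT i (Nat.le_succ i)) (hT' i (Nat.le_succ i))
      (hT (i + 1) le_rfl) (hT' (i + 1) le_rfl)
    rw [div_le_div_iff₀ h6 h0, h5]
    have h8 : bound p i a' m' v' ≤ (p : ℝ) ^ e * bound p i a m v := h7
    calc bound p i a' m' v' * N.index ≤ ((p : ℝ) ^ e * bound p i a m v) * N.index :=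
          mul_le_mul_of_nonneg_right h8 h0.le
      _ = _ := by ring
  · intro P hP hPg
    refine ⟨betti_int C hP hPg i, fun hlt => betti_zero C hP hPg i ?_⟩
    have hP0 : (0 : ℝ) < P.index := by exact_mod_cast Nat.pos_of_ne_zero hP
    have h2 : P.index * (N.index * C.b2 i) ≤ P.index * bound p i a m v :=
      mul_le_mul_of_nonneg_left h1 hP0.le
    by_contra hc
    push Not at hc
    have h3 : (N.index : ℝ) * 1 ≤ N.index * (P.index * C.b2 i) :=
      mul_le_mul_of_nonneg_left hc h0.le
    linarith

end Pool.Agent.Results.MP_f80465_gt.IntegralHomologyBound
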